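import Pool.Agent.H84.QQ.Bx
import Pool.Agent.H53.QQ.Q1
import Pool.Agent.H39.QQ.Q2
import Pool.Agent.H6.QQ.Q3
import Pool.Agent.H5.QQ.QN
import Pool.Agent.H31.QQ.QCNT
import Pool.Agent.H45.QQ.QGF

/-!
# MP_f5d5f4_nt: a height gap for congruent elliptic curves, exponents up to `22 / 7`, all primes `p ≥ 13`

For `j = a / b` in lowest terms let `H(j) = max (|a|, b)`; about `(12 / π ^ 2) X ^ 2` rational numbers
have height at most `X`.

**Theorem.** Let `D ≥ 1` and `κ < 22 / 7 = 3.142...`. There are `δ > 0` and `C` such that all but at most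
`C X ^ (2 - δ)` of the rational numbers `j` of height at most `X` have the following property. Let `K` be a
number field of degree at most `D` and prime to `6` (for instance `ℚ`), `E` an elliptic curve over `K` with
invariant `j`, and `E'` an elliptic curve over `K` with a rational invariant of height at most `X ^ κ`. If `E`
and `E'` are `p`-congruent over `K` for some prime `p ≥ 13` larger than `[K : ℚ]`, then they are isomorphic
over `K` (so twists are not excepted).

The earlier theorem of this kind (library, `HeightGap`, helper56) has `κ < 1 + (4 / 3) / (5 / 6 + 1 / P)` for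
the primes `p ≥ P`, that is `2.46` for `P = 13` and `2.505` for `P = 19`, with limit `13 / 5`. The local analysis
is taken from there; the enumeration is different.

Proof. Let `j = a / b`, `j' = a' / b'` be different and congruent, of heights at most `X` and `X ^ κ = X V`,
`c = a - 1728 b`, `c' = a' - 1728 b'`. By the local analysis of the library, with `A`, `C`, `B` the products of
the primes `q ≥ 5` at which `a`, `c` have orders prime to `3` and `2` and `b` an order at most `12`: `a = A a₁`,
`b = B b₁`, `c = C c₁`, `a' = A a₂`, `b' = B b₂`, `c' = C c₂`, where `a₂ = s α u³`, `α` a divisor of `A = α A₂`, `s`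
composed of few given primes. For all but `X ^ (2 - δ)` of the `j` the cofactors `a₁`, `b₁`, `c₁` are at most
`X ^ ε`. Let `B₀`, `B₁`, `B₂`, `B₃` be the products of the primes of `B` with order `0`, `1`, `2`, `≥ 3` in `b₂`; so
`b₂ = B₁ B₂² B₃³ v`, where `v` is a `p`-th power up to few choices if `B₃` is known. From `A a₁ ≡ 1728 B b₁`,
`A a₂ ≡ 1728 B b₂` modulo `C` it follows that `C` divides each of the numbers
* `a₁ b₂ - a₂ b₁`, which is known if `α`, `u`, `B₁`, `B₂`, `B₃`, `v` are known;
* `A₂ a₁² B₂ B₃² v - 1728 s B₀ b₁² u³`, where `α` and `B₁` do not occur;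
* `A² a₁³ B₃ v - 1728² B₀² B₁ b₁³ a₂`, where `B₂` does not occur.
The first one is not zero as `j ≠ j'`, the second one is zero only for `1728 j' = j²` (these pairs are counted
in another way), the third one is never zero (orders modulo `3` at a prime of `A`). So there are few choices for
`C`, and the linear relation `A a₁ = C c₁ + 1728 B b₁` determines the remaining numbers up to
`1 + X / (α B₁ B₂ B₃)`, `1 + α B₁ / X` and `1` choices. The geometric mean of the three bounds with weights
`3 / 5`, `4 / 15`, `2 / 15` is at most `X ^ (1 + ε) V ^ (7 / 15)`, because `B₁ B₂² B₃³ ≤ V X ^ ε`; this is smaller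
than `X ^ 2` for `κ < 22 / 7`.
-/

set_option autoImplicit false

open WeierstrassCurve

namespace Pool.Agent.Results.MP_f5d5f4_nt.HeightGapThree

section
variable {K : Type} [Field K]

/-- The curve `y² = x³ + Ax + B` over the field `K`. -/
def curve (A B : K) : WeierstrassCurve K := ⟨0, 0, 0, A, B⟩

/-- Its `j`-invariant. -/
noncomputable def invariant (A B : K) : K := 1728 * (4 * A ^ 3) / (4 * A ^ 3 + 27 * B ^ 2)

open scoped Classical in
/-- The group of its points over the algebraic closure of `K`. -/
abbrev Points (A B : K) : Type := ((curve A B).baseChange (AlgebraicClosure K)).toAffine.Point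

open scoped Classical in
/-- The action of an automorphism `σ` of the algebraic closure on the points. -/
noncomputable def galois (A B : K) (σ : AlgebraicClosure K ≃ₐ[K] AlgebraicClosure K) :
    Points A B →+ Points A B :=
  WeierstrassCurve.Affine.Point.map (σ : AlgebraicClosure K →ₐ[K] AlgebraicClosure K)

open scoped Classical in
/-- The curves `y² = x³ + Ax + B` and `y² = x³ + A'x + B'` are `p`-congruent over `K`: some map between
the groups of points restricts to a bijective additive map between the groups of points killed by `p`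
which commutes with the Galois group. -/
def Congruent (p : ℕ) (A B A' B' : K) : Prop :=
  ∃ f : Points A B → Points A' B', (∀ P Q, p • P = 0 → p • Q = 0 → f (P + Q) = f P + f Q) ∧
    Set.BijOn f {P | p • P = 0} {Q | p • Q = 0} ∧
    ∀ (σ : AlgebraicClosure K ≃ₐ[K] AlgebraicClosure K) (P : Points A B), p • P = 0 →
      f (galois A B σ P) = galois A' B' σ (f P)

/-- The curves are isomorphic over `K`. -/
def Isomorphic (A B A' B' : K) : Prop := ∃ c : K, c ≠ 0 ∧ A' = c ^ 4 * A ∧ B' = c ^ 6 * B

end

/-- The height of `j = a / b`, in lowest terms: the maximum of `|a|` and `b`. -/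
def height (j : ℚ) : ℕ := max j.num.natAbs j.den

/-- The curves with invariant `j`, over number fields `K` of degree at most `D` and prime to `6`, are not
congruent modulo a prime `p ≥ 13` larger than `[K : ℚ]` to any curve with a rational invariant of height
at most `y`, except for the curves isomorphic to them. -/
def NoCongruence (D : ℕ) (y : ℝ) (j : ℚ) : Prop :=
  ∀ (K : Type) [Field K] [NumberField K] (p : ℕ) (A B A' B' : K) (j' : ℚ),
    Module.finrank ℚ K ≤ D → (Module.finrank ℚ K).Coprime 6 →
    p.Prime → 13 ≤ p → Module.finrank ℚ K < p →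
    4 * A ^ 3 + 27 * B ^ 2 ≠ 0 → 4 * A' ^ 3 + 27 * B' ^ 2 ≠ 0 →
    invariant A B = (j : K) → invariant A' B' = (j' : K) → (height j' : ℝ) ≤ y →
    Congruent p A B A' B' → Isomorphic A B A' B'

open Pool.Agent.H84.QQ in
/-- the count -/
theorem main : S_QGF :=
  Pool.Agent.H45.QQ.qgf (Pool.Agent.H31.QQ.qcnt
    (box_of Pool.Agent.H53.QQ.q1 Pool.Agent.H39.QQ.q2 Pool.Agent.H6.QQ.q3 Pool.Agent.H5.QQ.qn))

/-- **Height gap.** If `κ < 22 / 7` then for all but `C X ^ (2 - δ)` rational numbers `j` of height at most `X`
the elliptic curves with invariant `j` have no `p`-congruence, `p ≥ 13`, with curves with invariants of height at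
most `X ^ κ`, except for isomorphisms. -/
theorem result (D : ℕ) (κ : ℝ) (hκ : κ < 22 / 7) :
    ∃ δ : ℝ, 0 < δ ∧ ∃ C : ℝ, ∀ X : ℕ, 1 ≤ X →
      (({j : ℚ | height j ≤ X ∧ ¬ NoCongruence D ((X : ℝ) ^ κ) j}.ncard : ℕ) : ℝ) ≤
        C * (X : ℝ) ^ (2 - δ) := by
  have hinv : ∀ {K : Type} [Field K] (A B : K), Pool.Agent.Y673.Loc.jv A B = invariant A B := by
    intro K _ A B
    unfold Pool.Agent.Y673.Loc.jv invariant
    ring
  obtain ⟨δ, hδ, C, h⟩ := main D 13 le_rfl (max κ 2) (le_max_right κ 2)
    (max_lt hκ (by norm_num))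
  refine ⟨δ, hδ, C, fun X hX => le_trans ?_ (h X hX)⟩
  have hX1 : (1 : ℝ) ≤ X := by exact_mod_cast hX
  refine Nat.cast_le.2 (Set.ncard_le_ncard ?_
    ((Pool.Agent.K4H56.JD.Ht_finite X).subset fun j hj => hj.1))
  rintro j ⟨hj, hF⟩
  refine ⟨hj, fun hFM => hF ?_⟩
  intro K _ _ p A B A' B' j' hD h6 hp hPp hn hd hd' hjj hjj' hH ⟨f, h1, h2, h3⟩
  refine hFM K _ _ p A B A' B' j' hD h6 hPp
    ⟨hd, hd', by rw [hinv, hjj], by rw [hinv, hjj'], hp, hPp, hn, ⟨f, h1, h2, h3⟩⟩
    (le_trans hH (Real.rpow_le_rpow_of_exponent_le hX1 (le_max_left κ 2)))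

end Pool.Agent.Results.MP_f5d5f4_nt.HeightGapThree
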